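import Pool.Agent.Lib.MP_343fe0_pr.Ju.Level

/-!
Trace reconstruction by rules that read at most `k` bits of each trace: for `k = 2 ^ j - 1` they
need `0.8 * exp T` traces as soon as `n ≥ (C k T ^ 3 log ^ 2 T) ^ k`.
-/

open Finset

namespace Pool.Agent.Results.MP_343fe0_pr.FewBits

open Pool.Agent.Lib.MP_343fe0_pr Pool.Agent.Lib.MP_343fe0_pr.Ju

/-- The value `g w` is found by reading the length of `w` and then at most `k` entries of `w`,
each place being chosen from the length and the entries read before (a decision tree). -/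
inductive Reads {α : Type} : ℕ → (List Bool → α) → Prop
  | stop (k : ℕ) (φ : ℕ → α) : Reads k fun w => φ w.length
  | read (k : ℕ) (p : ℕ → ℕ) (G : Option Bool → List Bool → α) :
      (∀ b, Reads k (G b)) → Reads (k + 1) fun w => G w[p w.length]? w

theorem tree {α : Type} {K : ℕ} {ε : ℝ} {x y : List Bool} (h : Mt K ε x y) (hε : 0 ≤ ε)
    (ψ : α → ℝ) (hψ : ∀ t, |ψ t| ≤ 1) {k : ℕ} {g : List Bool → α} (hg : Reads k g) :
    ∀ (a : ℕ) (χ : List Bool → ℝ), J a χ → a + k ≤ K →
      |Ev y (fun w => χ w * ψ (g w)) - Ev x (fun w => χ w * ψ (g w))| ≤ 3 ^ k * ε := by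
  induction hg with
  | stop k φ =>
    intro a χ hχ hK
    refine (h.2 _ (J.mono ⟨fun u => ?_, fun l => ?_⟩ (show a ≤ K by omega))).trans
      (le_mul_of_one_le_left hε (one_le_pow₀ (by norm_num)))
    · rw [abs_mul]
      exact mul_le_one₀ (hχ.1 u) (abs_nonneg _) (hψ _)
    · obtain ⟨P, hP, H⟩ := hχ.2 l
      refine ⟨P, hP, fun u v hu hv huv => ?_⟩
      beta_reduce
      rw [H u v hu hv huv, hu, hv]
  | read k p G _ ih =>
    intro a χ hχ hK
    have e : (fun w => χ w * ψ (G w[p w.length]? w)) = fun w => ∑ b : Option Bool,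
        (if w[p w.length]? = b then χ w else 0) * ψ (G b w) := by
      funext w
      simp
    beta_reduce
    rw [e, Ev_sum, Ev_sum, ← sum_sub_distrib]
    refine (abs_sum_le_sum_abs _ _).trans ((sum_le_card_nsmul _ _ (3 ^ k * ε) fun b _ =>
      ih b (a + 1) _ ⟨fun u => ?_, fun l => ?_⟩ (by omega)).trans_eq ?_)
    · split_ifs
      · exact hχ.1 u
      · simp
    · obtain ⟨P, hP, H⟩ := hχ.2 l
      refine ⟨insert (p l) P, (card_insert_le _ _).trans (by omega), fun u v hu hv huv => ?_⟩
      rw [H u v hu hv fun q hq => huv q (mem_insert_of_mem hq), hu, hv,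
        huv _ (mem_insert_self _ _)]
    · simp
      ring

theorem hybrid {Ω β : Type} [Fintype Ω] (a b : Ω → β) {ε : ℝ} (m : ℕ) :
    ∀ F : (Fin m → β) → ℝ, (∀ i t, |∑ ω, F (Function.update t i (a ω)) -
        ∑ ω, F (Function.update t i (b ω))| ≤ Fintype.card Ω * ε) →
      |∑ s : Fin m → Ω, F (fun i => a (s i)) - ∑ s : Fin m → Ω, F (fun i => b (s i))| ≤
        m * ((Fintype.card Ω : ℝ) ^ m * ε) := by
  induction m with
  | zero =>
    intro F _
    simp [Subsingleton.elim (fun i => a _) (fun i : Fin 0 => b ((default : Fin 0 → Ω) i))]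
  | succ m ih =>
    intro F hF
    have e : ∀ c : Ω → β, ∑ s : Fin (m + 1) → Ω, F (fun i => c (s i)) =
        ∑ ω, ∑ s : Fin m → Ω, F (Fin.cons (c ω) fun i => c (s i)) := by
      intro c
      rw [← (Fin.consEquiv fun _ => Ω).sum_comp, Fintype.sum_prod_type]
      refine sum_congr rfl fun ω _ => sum_congr rfl fun s _ => congrArg F (funext fun i => ?_)
      refine Fin.cases ?_ (fun i => ?_) i <;> simp [Fin.consEquiv]
    have h1 : |∑ ω, ∑ s : Fin m → Ω, F (Fin.cons (a ω) fun i => a (s i)) -
        ∑ ω, ∑ s : Fin m → Ω, F (Fin.cons (a ω) fun i => b (s i))| ≤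
        Fintype.card Ω * (m * ((Fintype.card Ω : ℝ) ^ m * ε)) := by
      rw [← sum_sub_distrib]
      refine (abs_sum_le_sum_abs _ _).trans ((sum_le_card_nsmul _ _ _ fun ω _ =>
        ih (fun t => F (Fin.cons (a ω) t)) fun i t => ?_).trans_eq (by simp))
      simpa only [Fin.cons_update] using hF i.succ (Fin.cons (a ω) t)
    have h2 : |∑ ω, ∑ s : Fin m → Ω, F (Fin.cons (a ω) fun i => b (s i)) -
        ∑ ω, ∑ s : Fin m → Ω, F (Fin.cons (b ω) fun i => b (s i))| ≤
        (Fintype.card Ω : ℝ) ^ m * (Fintype.card Ω * ε) := by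
      by_cases hΩ : IsEmpty Ω
      · simp
      obtain ⟨ω₀⟩ := not_isEmpty_iff.1 hΩ
      rw [sum_comm, sum_comm (f := fun ω (s : Fin m → Ω) => F (Fin.cons (b ω) fun i => b (s i))),
        ← sum_sub_distrib]
      refine (abs_sum_le_sum_abs _ _).trans ((sum_le_card_nsmul _ _ (Fintype.card Ω * ε)
        fun s _ => ?_).trans_eq (by simp))
      simpa only [Fin.update_cons_zero] using hF 0 (Fin.cons (b ω₀) fun i => b (s i))
    rw [e, e]
    refine (abs_sub_le _ _ _).trans ((add_le_add h1 h2).trans_eq ?_)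
    push_cast
    ring

theorem result : ∃ C : ℝ, ∀ j k T n : ℕ, k + 1 = 2 ^ j → C ≤ T → C * k * Real.log T ≤ T →
    (C * k * (T : ℝ) ^ 3 * Real.log T ^ 2) ^ k ≤ n →
    (∃ x y : Fin n → Bool, x ≠ y ∧ ∀ g : List Bool → ℝ, Reads k g → (∀ w, |g w| ≤ 1) →
      |∑ s : Fin n → Bool, g (trace x s) - ∑ s : Fin n → Bool, g (trace y s)| ≤
        2 ^ n * Real.exp (-T)) ∧
    ∀ (m : ℕ) (R : (Fin m → List Bool) → Fin n → Bool),
      (∀ i t, Reads k fun w => R (Function.update t i w)) →
      (∀ x : Fin n → Bool, (9 / 10 : ℝ) * 2 ^ (n * m) ≤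
        ((univ.filter fun s : Fin m → Fin n → Bool => R (fun i => trace x (s i)) = x).card : ℝ)) →
      (4 / 5 : ℝ) * Real.exp T ≤ m := by
  refine ⟨4000000, fun j k T n hk hT hkT hn => ?_⟩
  obtain ⟨X, Y, hne, rfl, hM⟩ := main hk hT hkT hn
  let x : Fin X.length → Bool := X.get
  let y : Fin X.length → Bool := fun i => Y.get (i.cast hM.1)
  have hx : List.ofFn x = X := List.ofFn_get X
  have hy : List.ofFn y = Y := by
    refine List.ext_getElem (by simp [hM.1]) fun i h1 h2 => ?_
    simp [y]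
  have hxy : x ≠ y := fun h => hne (by rw [← hx, ← hy, h])
  have key : ∀ {α : Type} (ψ : α → ℝ) (g : List Bool → α), (∀ t, |ψ t| ≤ 1) → Reads k g →
      |∑ s : Fin X.length → Bool, ψ (g (trace x s)) - ∑ s : Fin X.length → Bool,
        ψ (g (trace y s))| ≤ 2 ^ X.length * Real.exp (-T) := by
    intro α ψ g hψ hg
    have h1 := tree hM (by positivity) ψ hψ hg 0 (fun _ => 1)
      ⟨by simp, fun _ => ⟨∅, by simp, by simp⟩⟩ (by omega)
    simp only [one_mul] at h1
    rw [link x fun w => ψ (g w), link y fun w => ψ (g w), hx, hy, ← mul_sub, abs_mul,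
      abs_of_pos (by positivity), abs_sub_comm]
    refine mul_le_mul_of_nonneg_left (h1.trans_eq ?_) (by positivity)
    field_simp
  refine ⟨⟨x, y, hxy, fun g hg hb => ?_⟩, fun m R hR hs => ?_⟩
  · have h1 := key (fun t : ℝ => if |t| ≤ 1 then t else 0) g
      (fun t => by split_ifs with h <;> simp [h]) hg
    simpa only [hb, if_true] using h1
  · have h1 := hybrid (trace x) (trace y) (ε := Real.exp (-T)) m
      (fun t => if R t = x then 1 else 0) fun i t => by
        simpa using key (fun z => if z = x then 1 else 0) _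
          (fun z => by split_ifs <;> simp) (hR i t)
    have h2 := hs x
    have h3 := hs y
    have h4 : ((univ.filter fun s : Fin m → Fin X.length → Bool =>
        R (fun i => trace y (s i)) = x).card : ℝ) + (univ.filter fun s : Fin m → Fin X.length →
        Bool => R (fun i => trace y (s i)) = y).card ≤ 2 ^ (X.length * m) := by
      have h5 := card_le_univ ((univ.filter fun s : Fin m → Fin X.length → Bool =>
        R (fun i => trace y (s i)) = x) ∪ univ.filter fun s => R (fun i => trace y (s i)) = y)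
      rw [card_union_of_disjoint (disjoint_filter.2 fun s _ h h' => hxy (h.symm.trans h'))] at h5
      simp only [Fintype.card_pi, Fintype.card_bool, prod_const, card_univ, Fintype.card_fin,
        ← pow_mul] at h5
      exact_mod_cast h5
    simp only [sum_boole, Fintype.card_pi, Fintype.card_bool, prod_const, card_univ,
      Fintype.card_fin, Nat.cast_pow, Nat.cast_ofNat, ← pow_mul] at h1
    have h5 : (2 : ℝ) ^ (X.length * m) * (4 / 5) ≤ 2 ^ (X.length * m) * (m * Real.exp (-T)) := by
      linarith [(abs_le.1 h1).2]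
    have h6 := le_of_mul_le_mul_left h5 (by positivity)
    rwa [Real.exp_neg, ← div_eq_mul_inv, le_div_iff₀ (Real.exp_pos _)] at h6

end Pool.Agent.Results.MP_343fe0_pr.FewBits
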