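import Pool.Agent.Lib.MP_343fe0_pr.QCycle

set_option autoImplicit false

open Pool.Agent.Lib.MP_343fe0_pr in
/-- Worst-case trace reconstruction needs at least `exp ((log n) ^ 1.005)` traces. -/
theorem Pool.Agent.Results.MP_343fe0_pr.Quasi.result :
    ∃ N : ℕ, ∀ n ≥ N, Real.exp (Real.log n ^ (201 / 200 : ℝ)) ≤ (mTr n : ℝ) :=
  quasi
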