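import Pool.Agent.Lib.MP_343fe0_pr.QCycle
import Pool.Agent.Lib.MP_343fe0_pr.Up.Upper

set_option autoImplicit false

open Pool.Agent.Lib.MP_343fe0_pr in
/-- The number of traces needed in worst-case trace reconstruction is quasi-polynomial. -/
theorem Pool.Agent.Results.MP_343fe0_pr.TwoSided.result :
    ∃ N : ℕ, ∀ n ≥ N, Real.exp (Real.log n ^ (201 / 200 : ℝ)) ≤ (mTr n : ℝ) ∧
      (mTr n : ℝ) ≤ Real.exp (Real.log n ^ 116) := by
  obtain ⟨N1, h1⟩ := quasi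
  obtain ⟨N2, h2⟩ := Up.upper
  exact ⟨max N1 N2, fun n hn => ⟨h1 n (le_of_max_le_left hn), h2 n (le_of_max_le_right hn)⟩⟩
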